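import Pool.Agent.H242R3.ES.StmtsG

/-!
# ES-G3: chains of faces can be refined
-/

set_option autoImplicit false

open Finset
open scoped Classical

namespace Pool.Agent.H242R3.ES

namespace G3H78

variable {ι E : Type} [Fintype ι] [AddCommGroup E] [Module ℝ E]

theorem g1 (V : ι → E) (S T : Set ι) (hS : Face V S) (hTS : T ⊆ S)
    (h : ∃ l : E →ₗ[ℝ] ℝ, (∀ i ∈ S, 0 ≤ l (V i)) ∧ ∀ i ∈ S, (i ∈ T ↔ l (V i) = 0)) :
    Face V T := by
  obtain ⟨lS, h1, h2⟩ := hS
  obtain ⟨l, h3, h4⟩ := h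
  set N : ℝ := ∑ i, |l (V i)| / lS (V i) + 1 with hN
  have hterm : ∀ i, 0 ≤ |l (V i)| / lS (V i) := fun i => div_nonneg (abs_nonneg _) (h1 i)
  have key : ∀ i, i ∉ S → 0 < N * lS (V i) + l (V i) := by
    intro i hi
    have hpos : 0 < lS (V i) := lt_of_le_of_ne (h1 i) (fun h => hi ((h2 i).2 h.symm))
    have h5 : |l (V i)| / lS (V i) + 1 ≤ N := by
      rw [hN]
      have := Finset.single_le_sum (f := fun i => |l (V i)| / lS (V i)) (fun i _ => hterm i)
        (Finset.mem_univ i)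
      linarith
    have h6 : (|l (V i)| / lS (V i) + 1) * lS (V i) ≤ N * lS (V i) :=
      mul_le_mul_of_nonneg_right h5 hpos.le
    rw [add_mul, div_mul_cancel₀ _ hpos.ne', one_mul] at h6
    have := neg_abs_le (l (V i))
    linarith
  have hval : ∀ i, i ∈ S → (N • lS + l) (V i) = l (V i) := by
    intro i hi
    rw [LinearMap.add_apply, LinearMap.smul_apply, (h2 i).1 hi, smul_zero, zero_add]
  have hval' : ∀ i, (N • lS + l) (V i) = N * lS (V i) + l (V i) := by
    intro i
    rw [LinearMap.add_apply, LinearMap.smul_apply, smul_eq_mul]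
  refine ⟨N • lS + l, fun i => ?_, fun i => ?_⟩
  · by_cases hi : i ∈ S
    · rw [hval i hi]
      exact h3 i hi
    · rw [hval']
      exact (key i hi).le
  · by_cases hi : i ∈ S
    · rw [hval i hi]
      exact h4 i hi
    · rw [hval']
      exact ⟨fun h => absurd (hTS h) hi, fun h => absurd h (key i hi).ne'⟩

theorem second [FiniteDimensional ℝ E] (V : ι → E) (R S : Set ι) (hR : Face V R) (hS : Face V S)
    (hRS : R ⊂ S) : ∃ T, R ⊆ T ∧ Cov V T S := by
  obtain ⟨T, hT, hmax⟩ := ((univ : Finset (Set ι)).filter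
    (fun T => Face V T ∧ R ⊆ T ∧ T ⊂ S)).exists_max_image (fun T => T.ncard)
    ⟨R, by
      rw [Finset.mem_filter]
      exact ⟨Finset.mem_univ _, hR, subset_rfl, hRS⟩⟩
  rw [Finset.mem_filter] at hT
  obtain ⟨-, hTF, hRT, hTS⟩ := hT
  have hmax' : ∀ T', Face V T' → T ⊂ T' → T' ⊂ S → False := by
    intro T' h1 h2 h3
    have h4 := hmax T' (by
      rw [Finset.mem_filter]
      exact ⟨Finset.mem_univ _, h1, hRT.trans h2.subset, h3⟩)
    have h5 := Set.ncard_lt_ncard h2 (Set.toFinite T')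
    omega
  refine ⟨T, hRT, hTF, hS, hTS, ?_⟩
  obtain ⟨lT, hl1, hl2⟩ := hTF
  obtain ⟨k0, hk0S, hk0T⟩ := Set.exists_of_ssubset hTS
  have hpos : ∀ k, k ∉ T → 0 < lT (V k) := fun k hk =>
    lt_of_le_of_ne (hl1 k) (fun h => hk ((hl2 k).2 h.symm))
  have hker : Submodule.span ℝ (V '' T) ≤ LinearMap.ker lT := by
    rw [Submodule.span_le]
    rintro _ ⟨i, hi, rfl⟩
    exact (hl2 i).1 hi
  have hlt : rk V T < rk V S := by
    apply Submodule.finrank_lt_finrank_of_lt
    refine lt_of_le_of_ne (Submodule.span_mono (Set.image_mono hTS.subset)) ?_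
    intro h
    have h1 : V k0 ∈ Submodule.span ℝ (V '' T) := by
      rw [h]
      exact Submodule.subset_span ⟨k0, hk0S, rfl⟩
    exact (hpos k0 hk0T).ne' (hker h1)
  by_contra hne
  have h2 : rk V T + 2 ≤ rk V S := by omega
  set W' : Submodule ℝ E := Submodule.span ℝ (V '' T) ⊔ Submodule.span ℝ {V k0} with hW'
  have hW'r : Module.finrank ℝ W' ≤ rk V T + 1 := by
    have h3 := Submodule.finrank_add_le_finrank_add_finrank (Submodule.span ℝ (V '' T))
      (Submodule.span ℝ {V k0})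
    have h4 : Module.finrank ℝ (Submodule.span ℝ {V k0}) ≤ 1 := by
      have := finrank_span_le_card (R := ℝ) ({V k0} : Set E)
      simpa using this
    exact h3.trans (Nat.add_le_add_left h4 _)
  obtain ⟨k1, hk1S, hk1⟩ : ∃ k1 ∈ S, V k1 ∉ W' := by
    by_contra hcon
    push Not at hcon
    have h3 : Submodule.span ℝ (V '' S) ≤ W' := by
      rw [Submodule.span_le]
      rintro _ ⟨i, hi, rfl⟩
      exact hcon i hi
    have h4 : rk V S ≤ Module.finrank ℝ W' := Submodule.finrank_mono h3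
    omega
  obtain ⟨q, hq, hqn⟩ : ∃ q : E →ₗ[ℝ] ℝ, W' ≤ LinearMap.ker q ∧ q (V k1) < 0 := by
    obtain ⟨q, hq1, hq2⟩ := Submodule.exists_le_ker_of_notMem hk1
    rcases lt_or_gt_of_ne hq1 with h | h
    · exact ⟨q, hq2, h⟩
    · refine ⟨-q, ?_, ?_⟩
      · intro x hx
        have := hq2 hx
        rw [LinearMap.mem_ker] at this ⊢
        rw [LinearMap.neg_apply, this, neg_zero]
      · rw [LinearMap.neg_apply]
        linarith
  have hqT : ∀ i ∈ T, q (V i) = 0 := fun i hi =>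
    hq (Submodule.mem_sup_left (Submodule.subset_span ⟨i, hi, rfl⟩))
  have hqk0 : q (V k0) = 0 := hq (Submodule.mem_sup_right (Submodule.mem_span_singleton_self _))
  obtain ⟨km, hkm, hmin⟩ := ((univ : Finset ι).filter
    (fun k => k ∈ S ∧ q (V k) < 0)).exists_min_image (fun k => lT (V k) / (-q (V k)))
    ⟨k1, by
      rw [Finset.mem_filter]
      exact ⟨Finset.mem_univ _, hk1S, hqn⟩⟩
  rw [Finset.mem_filter] at hkm
  obtain ⟨-, hkmS, hkmq⟩ := hkm
  have hkmT : km ∉ T := fun h => hkmq.ne (hqT km h)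
  set t : ℝ := lT (V km) / (-q (V km)) with ht
  have ht0 : 0 ≤ t := div_nonneg (hl1 km) (by linarith)
  have hval : ∀ i, (lT + t • q) (V i) = lT (V i) + t * q (V i) := by
    intro i
    rw [LinearMap.add_apply, LinearMap.smul_apply, smul_eq_mul]
  refine hmax' {i | i ∈ S ∧ (lT + t • q) (V i) = 0} ?_ ?_ ?_
  · refine g1 V S _ hS (fun i hi => hi.1) ⟨lT + t • q, fun i hi => ?_, fun i hi => ?_⟩
    · rw [hval]
      rcases le_or_gt 0 (q (V i)) with h | h
      · have := hl1 i
        positivity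
      · have h3 := hmin i (by
          rw [Finset.mem_filter]
          exact ⟨Finset.mem_univ _, hi, h⟩)
        rw [le_div_iff₀ (by linarith)] at h3
        linarith
    · exact ⟨fun h => h.2, fun h => ⟨hi, h⟩⟩
  · rw [Set.ssubset_iff_of_subset]
    · refine ⟨km, ⟨hkmS, ?_⟩, hkmT⟩
      rw [hval, ht]
      have h3 : q (V km) ≠ 0 := hkmq.ne
      field_simp
      ring
    · intro i hi
      refine ⟨hTS.subset hi, ?_⟩
      rw [hval, (hl2 i).1 hi, hqT i hi, mul_zero, add_zero]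
  · rw [Set.ssubset_iff_of_subset (fun i hi => hi.1)]
    refine ⟨k0, hk0S, fun h => ?_⟩
    have h3 := h.2
    rw [hval, hqk0, mul_zero, add_zero] at h3
    exact (hpos k0 hk0T).ne' h3

theorem t : TaskG3 := by
  intro ι E _ _ _ _ V R S hR hS hRS
  refine ⟨?_, second V R S hR hS hRS⟩
  obtain ⟨T, hT, hmin⟩ := ((univ : Finset (Set ι)).filter
    (fun T => Face V T ∧ R ⊂ T ∧ T ⊆ S)).exists_min_image (fun T => T.ncard)
    ⟨S, by
      rw [Finset.mem_filter]
      exact ⟨Finset.mem_univ _, hS, hRS, subset_rfl⟩⟩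
  rw [Finset.mem_filter] at hT
  obtain ⟨-, hTF, hRT, hTS⟩ := hT
  obtain ⟨T', hRT', hcov⟩ := second V R T hR hTF hRT
  have hT'T : T' ⊂ T := hcov.2.2.1
  have heq : R = T' := by
    by_contra hne
    have h1 := hmin T' (by
      rw [Finset.mem_filter]
      exact ⟨Finset.mem_univ _, hcov.1, lt_of_le_of_ne hRT' hne, hT'T.subset.trans hTS⟩)
    have h2 := Set.ncard_lt_ncard hT'T (Set.toFinite T)
    omega
  subst heq
  exact ⟨T, hTS, hcov⟩

end G3H78

end Pool.Agent.H242R3.ES
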